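import Pool.Agent.Helper75.PX.Hand4

/-!
# Essential dimension of the projective linear group of degree twelve

For a field `F` of characteristic different from 3 with a primitive cube root of unity,
every central simple algebra `A` of degree twelve (dimension 144) over an extension `K` of `F`
is obtained by extension of scalars from a central simple algebra over an intermediate field
`L` of transcendence degree at most five over `F`.
-/

set_option autoImplicit false

universe u

open Module TensorProduct

namespace Pool.Agent.Results.MP_ce4989_al.DegreeTwelve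

/-- `ed_F(PGL_12) ≤ 5` -/
theorem result (F K A : Type u) [Field F] [Field K] [Algebra F K]
    [Ring A] [Algebra K A] [Algebra.IsCentral K A] [IsSimpleRing A]
    (h3 : (3 : F) ≠ 0) (hζ : ∃ ζ : F, ζ ^ 2 + ζ + 1 = 0)
    (hA : finrank K A = 144) :
    ∃ (L : IntermediateField F K) (B : Type u) (_ : Ring B) (_ : Algebra L B),
      Algebra.trdeg F L ≤ 5 ∧ Algebra.IsCentral L B ∧ IsSimpleRing B ∧ finrank L B = 144 ∧
      Nonempty ((K ⊗[L] B) ≃ₐ[K] A) :=
  Pool.Agent.Helper75.PX.st_M12z F K A h3 hζ hA

end Pool.Agent.Results.MP_ce4989_al.DegreeTwelve
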