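import Pool.Agent.Helper75.PX.Hand4

/-!
# Degree twelve over every field

For every field `F`, every central simple algebra of degree twelve (dimension 144) over an
extension `K` of `F` is obtained by extension of scalars from a central simple algebra over an
intermediate field of transcendence degree at most six.
-/

set_option autoImplicit false

universe u

open Module TensorProduct

namespace Pool.Agent.Results.MP_ce4989_al.DegreeTwelveAllFields

/-- `ed_F(PGL_12) ≤ 6` -/
theorem result (F K A : Type u) [Field F] [Field K] [Algebra F K]
    [Ring A] [Algebra K A] [Algebra.IsCentral K A] [IsSimpleRing A]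
    (hA : finrank K A = 144) :
    ∃ (L : IntermediateField F K) (B : Type u) (_ : Ring B) (_ : Algebra L B),
      Algebra.trdeg F L ≤ 6 ∧ Algebra.IsCentral L B ∧ IsSimpleRing B ∧ finrank L B = 144 ∧
      Nonempty ((K ⊗[L] B) ≃ₐ[K] A) :=
  Pool.Agent.Helper75.PX.st_M12u F K A hA

end Pool.Agent.Results.MP_ce4989_al.DegreeTwelveAllFields
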