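import Pool.Agent.Helper75.PZ.Hand

/-!
# Essential dimension of `PGL_6` over every field

Let `F` be a field. Every central simple algebra of degree six (dimension 36) over an extension
`K` of `F` is defined over an intermediate field of transcendence degree at most three, and it is
always defined over one of transcendence degree at most two if and only if `F` has characteristic
two or three or contains a root of `X ^ 2 + X + 1`.
-/

set_option autoImplicit false

universe u

open Module TensorProduct

namespace Pool.Agent.Results.MP_ce4989_al.DegreeSixBadCharacteristic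

/-- `ed_F(PGL_6) ≤ 3`, and `ed_F(PGL_6) ≤ 2` exactly when `F` has characteristic two or three or
contains a root of `X ^ 2 + X + 1` -/
theorem result (F : Type u) [Field F] :
    (∀ (K A : Type u) [Field K] [Algebra F K]
      [Ring A] [Algebra K A] [Algebra.IsCentral K A] [IsSimpleRing A], finrank K A = 36 →
      ∃ (L : IntermediateField F K) (B : Type u) (_ : Ring B) (_ : Algebra L B),
        Algebra.trdeg F L ≤ 3 ∧ Algebra.IsCentral L B ∧ IsSimpleRing B ∧ finrank L B = 36 ∧
        Nonempty ((K ⊗[L] B) ≃ₐ[K] A)) ∧
    ((∀ (K A : Type u) [Field K] [Algebra F K]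
      [Ring A] [Algebra K A] [Algebra.IsCentral K A] [IsSimpleRing A], finrank K A = 36 →
      ∃ (L : IntermediateField F K) (B : Type u) (_ : Ring B) (_ : Algebra L B),
        Algebra.trdeg F L ≤ 2 ∧ Algebra.IsCentral L B ∧ IsSimpleRing B ∧ finrank L B = 36 ∧
        Nonempty ((K ⊗[L] B) ≃ₐ[K] A)) ↔
      ((2 : F) = 0 ∨ (3 : F) = 0 ∨ ∃ ζ : F, ζ ^ 2 + ζ + 1 = 0)) := by
  have e3 : ((3 : ℕ) : Cardinal.{u}) = 3 := by norm_num
  have e2 : ((2 : ℕ) : Cardinal.{u}) = 2 := by norm_num
  have h := Pool.Agent.Helper75.PZ.hand_ANS F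
  unfold Pool.Agent.Helper75.PZ.DESC6 at h
  rw [e3, e2] at h
  exact h

end Pool.Agent.Results.MP_ce4989_al.DegreeSixBadCharacteristic
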